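import Pool.Agent.Run7.h58.Full

open MeasureTheory

/-- The posed inequality (in the form of the frozen statement, but for all bounded measurable
compactly supported `g` instead of the continuous ones) holds for `d = 3` and
`1 < p ≤ 1 + 1/200000`. -/
theorem Pool.Agent.Results.MP_d34678_an.DimThree.result :
    ∀ (p : ℝ), 1 < p → p ≤ 1 + 1 / 200000 →
    ∀ η : SchwartzMap (EuclideanSpace ℝ (Fin 3)) ℂ,
      (∃ ε : ℝ, 0 < ε ∧ ∀ ξ : EuclideanSpace ℝ (Fin 3), ‖ξ‖ < ε →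
        ∫ x : EuclideanSpace ℝ (Fin 3),
          Complex.exp (-(2 * (Real.pi : ℂ) * Complex.I * ((inner ℝ x ξ : ℝ) : ℂ))) * η x = 0) →
      ∃ C : ℝ, ∀ g : EuclideanSpace ℝ (Fin 3) × ℝ → ℂ,
        Measurable g → (∃ B : ℝ, ∀ q, ‖g q‖ ≤ B) → HasCompactSupport g →
        eLpNorm
          (fun x : EuclideanSpace ℝ (Fin 3) =>
            ∫ r in Set.Ioi (1 : ℝ), ∫ z : EuclideanSpace ℝ (Fin 3),
              (∫ y in Metric.sphere (0 : EuclideanSpace ℝ (Fin 3)) r, η (x - y - z)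
                ∂(Measure.hausdorffMeasure ((3 : ℝ) - 1))) * g (z, r))
          (ENNReal.ofReal p) volume
        ≤ ENNReal.ofReal C *
          (∫⁻ r in Set.Ioi (1 : ℝ), ∫⁻ x : EuclideanSpace ℝ (Fin 3),
              ‖g (x, r)‖ₑ ^ p * ENNReal.ofReal (r ^ (3 - 1))) ^ (1 / p) := by
  intro p hp hp1 η hη
  obtain ⟨ε, hε, h0⟩ := hη
  obtain ⟨h2, h3⟩ := Run7.h58.p_small p hp hp1
  obtain ⟨C, hC, hdisc⟩ := Run7.h58.disc_full p hp h2 h3
  obtain ⟨C', hC'⟩ := Run7.h58.reduce p hp C hC η ε hε (Run7.h58.ft_zero η ε h0)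
  refine ⟨C', ?_⟩
  intro g hgm hgb hgc
  have h := hC' (Set.Ioi 1) measurableSet_Ioi (fun r hr => le_of_lt hr)
    (fun Ψ hΨ a b E hE c => hdisc Ψ hΨ a b E (fun e he => le_of_lt (hE e he)) c) g ⟨hgm, hgb, hgc⟩
  have e2 : ((3 : ℝ) - 1) = 2 := by norm_num
  rw [e2]
  exact h
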